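import Pool.Agent.W21.RV.Defs
import Pool.Agent.W342.DC.SP

set_option autoImplicit false

/-!
Smooth parts of shifted primes (RV-SP), `|a| ≤ N²`: we pass to a divisor `m' ≤ N^(3/8)` of the smooth
divisor `m`, so that only prime powers `≤ N` occur.
-/

namespace Pool.Agent.W974.RV

open Finset ArithmeticFunction Filter
open Pool.Agent.W23.DC Pool.Agent.W23.DS Pool.Agent.W342.DC

/-- the part of the logarithm coming from higher prime powers up to `N` -/
noncomputable def RPp (N : ℕ) (a : ℤ) (p : ℕ) : ℝ :=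
  ∑ d ∈ (Icc 1 N).filter (fun d => ¬ d.Prime), if (d : ℤ) ∣ a - p then Λ d else 0

theorem RPp_nonneg (N : ℕ) (a : ℤ) (p : ℕ) : 0 ≤ RPp N a p := by
  unfold RPp
  apply Finset.sum_nonneg
  intro l _
  split_ifs
  · exact vonMangoldt_nonneg
  · exact le_rfl

theorem sum_RPp (N : ℕ) (a : ℤ) :
    ∑ p ∈ (PN N).filter (fun p : ℕ => (p : ℤ) ≠ a), RPp N a p =
      ∑ d ∈ (Icc 1 N).filter (fun d => ¬ d.Prime), Λ d * (cc (PN N) a d : ℝ) := by
  unfold RPp
  rw [Finset.sum_comm]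
  apply Finset.sum_congr rfl
  intro d _
  rw [← Finset.sum_filter, Finset.sum_const, nsmul_eq_mul, Finset.filter_filter, mul_comm]
  rfl

theorem cc_triv' {A : Finset ℕ} {a : ℤ} {d X : ℕ} (hA : ∀ p ∈ A, p ≤ X) (hd : 1 ≤ d)
    (hdX : d ≤ X) : (cc A a d : ℝ) ≤ 7 * X / d := by
  classical
  have hd0 : (0 : ℤ) < d := by exact_mod_cast hd
  have h0 : 0 ≤ a % d := Int.emod_nonneg _ hd0.ne'
  have h1 : a % d < d := Int.emod_lt_of_pos _ hd0
  have h2 : |a % d| ≤ 2 * (X : ℤ) := by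
    rw [abs_of_nonneg h0]
    have : (d : ℤ) ≤ X := by exact_mod_cast hdX
    omega
  have h3 := cc_triv (A := A) (N := a % d) (d := d) (X := X) hA h2 hd
  have h4 : cc A a d ≤ cc A (a % d) d + 1 := by
    unfold cc
    refine (Finset.card_le_card (t := insert (a % d).toNat
      (A.filter (fun p : ℕ => (p : ℤ) ≠ a % d ∧ (d : ℤ) ∣ a % d - p))) ?_).trans
      (Finset.card_insert_le _ _)
    intro p hp
    rw [mem_filter] at hp
    rw [mem_insert, mem_filter]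
    by_cases h : (p : ℤ) = a % d
    · left; omega
    · right
      refine ⟨hp.1, h, ?_⟩
      have h5 : a % d - (p : ℤ) = (a - p) - d * (a / d) := by
        have := Int.emod_add_mul_ediv a d
        linarith
      rw [h5]
      exact dvd_sub hp.2.2 (dvd_mul_right _ _)
  have h5 : (cc A a d : ℝ) ≤ (cc A (a % d) d : ℝ) + 1 := by exact_mod_cast h4
  have hd1 : (0 : ℝ) < d := by exact_mod_cast hd
  have h6 : (1 : ℝ) ≤ X / d := by
    rw [le_div_iff₀ hd1, one_mul]; exact_mod_cast hdX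
  have h7 : 7 * (X : ℝ) / d = 6 * X / d + X / d := by ring
  linarith

theorem nonprime' (ε : ℝ) (hε : 0 < ε) : ∃ S : ℝ, 0 ≤ S ∧ ∀ (A : Finset ℕ) (N : ℤ) (X : ℕ),
    (∀ p ∈ A, p ≤ X) →
    ∑ d ∈ (Icc 1 X).filter (fun d => ¬ d.Prime), Λ d * (cc A N d : ℝ) ≤
      S * A.card + ε * X := by
  have hs := ArithmeticFunction.vonMangoldt.summable_residueClass_non_primes_div (q := 1) 1
  have hv := hs.vanishing (e := Metric.ball (0 : ℝ) (ε / 7)) (Metric.ball_mem_nhds _ (by positivity))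
  obtain ⟨s, hs⟩ := hv
  refine ⟨∑ d ∈ s, Λ d, Finset.sum_nonneg fun _ _ => vonMangoldt_nonneg, ?_⟩
  intro A N X hA
  set P := (Icc 1 X).filter (fun d => ¬ d.Prime) with hP
  have h1 : ∑ d ∈ P, Λ d * (cc A N d : ℝ) = ∑ d ∈ P.filter (fun d => d ∈ s), Λ d * (cc A N d : ℝ) +
      ∑ d ∈ P.filter (fun d => ¬ d ∈ s), Λ d * (cc A N d : ℝ) :=
    (Finset.sum_filter_add_sum_filter_not _ _ _).symm
  have h2 : ∑ d ∈ P.filter (fun d => d ∈ s), Λ d * (cc A N d : ℝ) ≤ (∑ d ∈ s, Λ d) * A.card := by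
    rw [Finset.sum_mul]
    refine (Finset.sum_le_sum (g := fun d => Λ d * (A.card : ℝ)) ?_).trans ?_
    · intro d _
      exact mul_le_mul_of_nonneg_left (by exact_mod_cast cc_le_card A N d) vonMangoldt_nonneg
    · apply Finset.sum_le_sum_of_subset_of_nonneg
      · intro d hd
        exact (mem_filter.1 hd).2
      · intro d _ _
        exact mul_nonneg vonMangoldt_nonneg (Nat.cast_nonneg _)
  have h3 : ∑ d ∈ P.filter (fun d => ¬ d ∈ s), Λ d * (cc A N d : ℝ) ≤ ε * X := by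
    have h4 := hs (P.filter (fun d => ¬ d ∈ s)) (by
      rw [Finset.disjoint_left]
      intro d hd
      exact (mem_filter.1 hd).2)
    rw [Metric.mem_ball, dist_zero_right, Real.norm_eq_abs] at h4
    have h5 := (abs_lt.1 h4).2
    have h6 : ∑ d ∈ P.filter (fun d => ¬ d ∈ s), Λ d * (cc A N d : ℝ) ≤
        7 * X * ∑ d ∈ P.filter (fun d => ¬ d ∈ s),
          (if d.Prime then 0 else ArithmeticFunction.vonMangoldt.residueClass (1 : ZMod 1) d) /
            (d : ℝ) := by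
      rw [Finset.mul_sum]
      apply Finset.sum_le_sum
      intro d hd
      rw [mem_filter, hP, mem_filter, mem_Icc] at hd
      rw [if_neg hd.1.2]
      have h7 : ArithmeticFunction.vonMangoldt.residueClass (1 : ZMod 1) d = Λ d := by
        unfold ArithmeticFunction.vonMangoldt.residueClass
        rw [Set.indicator_of_mem]
        exact Subsingleton.elim _ _
      rw [h7]
      have h8 := cc_triv' (A := A) (a := N) (d := d) (X := X) hA hd.1.1.1 hd.1.1.2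
      calc Λ d * (cc A N d : ℝ) ≤ Λ d * (7 * X / d) :=
            mul_le_mul_of_nonneg_left h8 vonMangoldt_nonneg
        _ = 7 * X * (Λ d / d) := by ring
    have h7 : 7 * (X : ℝ) * ∑ d ∈ P.filter (fun d => ¬ d ∈ s),
          (if d.Prime then 0 else ArithmeticFunction.vonMangoldt.residueClass (1 : ZMod 1) d) /
            (d : ℝ) ≤ 7 * X * (ε / 7) := mul_le_mul_of_nonneg_left h5.le (by positivity)
    linarith
  linarith

/-- the logarithm of a smooth divisor at most `N` -/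
theorem log_le' {N : ℕ} {a : ℤ} {p m : ℕ} {y : ℝ}
    (hpa : (p : ℤ) ≠ a) (hm : m ∣ (a - p).natAbs) (hmN' : m ≤ N)
    (hy : ∀ l : ℕ, l.Prime → l ∣ m → (l : ℝ) < y) :
    Real.log m ≤ RR (Q 1 y) a p + RPp N a p := by
  classical
  have hn : (a - (p : ℤ)).natAbs ≠ 0 := by
    rw [Int.natAbs_ne_zero]; omega
  have hm0 : m ≠ 0 := fun h => hn (by rw [h] at hm; exact Nat.eq_zero_of_zero_dvd hm)
  have hmN : ∀ d ∈ m.divisors, d ∣ (a - (p : ℤ)).natAbs ∧ 1 ≤ d ∧ d ≤ N := by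
    intro d hd
    have hd' := Nat.mem_divisors.1 hd
    exact ⟨hd'.1.trans hm, Nat.pos_of_mem_divisors hd,
      (Nat.le_of_dvd (Nat.pos_of_ne_zero hm0) hd'.1).trans hmN'⟩
  rw [← vonMangoldt_sum, ← Finset.sum_filter_add_sum_filter_not m.divisors Nat.Prime]
  apply add_le_add
  · unfold RR
    rw [← Finset.sum_filter]
    have e1 : ∑ d ∈ m.divisors.filter Nat.Prime, Λ d =
        ∑ d ∈ m.divisors.filter Nat.Prime, Real.log d := by
      apply Finset.sum_congr rfl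
      intro d hd
      rw [vonMangoldt_apply_prime (mem_filter.1 hd).2]
    rw [e1]
    apply Finset.sum_le_sum_of_subset_of_nonneg
    · intro d hd
      rw [mem_filter] at hd
      rw [mem_filter, mem_Q]
      have h1 := hmN d hd.1
      exact ⟨⟨hd.2, by exact_mod_cast hd.2.one_lt,
        (hy d hd.2 (Nat.mem_divisors.1 hd.1).1).le⟩, Int.natCast_dvd.2 h1.1⟩
    · intro d _ _
      exact Real.log_natCast_nonneg d
  · unfold RPp
    rw [← Finset.sum_filter]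
    apply Finset.sum_le_sum_of_subset_of_nonneg
    · intro d hd
      rw [mem_filter] at hd
      rw [mem_filter, mem_filter, mem_Icc]
      have h1 := hmN d hd.1
      exact ⟨⟨h1.2, hd.2⟩, Int.natCast_dvd.2 h1.1⟩
    · intro d _ _
      exact vonMangoldt_nonneg

/-- a smooth number has a divisor just above a given bound -/
theorem exists_dvd {m : ℕ} {y t : ℝ} (ht : 1 ≤ t) (htm : t < m)
    (hy : ∀ l : ℕ, l.Prime → l ∣ m → (l : ℝ) < y) :
    ∃ m' : ℕ, m' ∣ m ∧ t < m' ∧ (m' : ℝ) ≤ t * y := by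
  classical
  have hex : ∃ k : ℕ, k ∣ m ∧ t < k := ⟨m, dvd_rfl, htm⟩
  refine ⟨Nat.find hex, (Nat.find_spec hex).1, (Nat.find_spec hex).2, ?_⟩
  obtain ⟨h1, h2⟩ := Nat.find_spec hex
  set k := Nat.find hex with hk
  have hk1 : 1 < k := by
    have : (1 : ℝ) < k := by linarith
    exact_mod_cast this
  obtain ⟨l, hl, hlk⟩ := Nat.exists_prime_and_dvd hk1.ne'
  obtain ⟨j, hj⟩ := hlk
  have hj0 : 0 < j := by
    rcases Nat.eq_zero_or_pos j with h | h
    · rw [h, mul_zero] at hj; omega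
    · exact h
  have hjk : j < k := by
    rw [hj]
    have := hl.two_le
    nlinarith
  have h3 := Nat.find_min hex hjk
  have h4 : (j : ℝ) ≤ t := by
    by_contra h
    exact h3 ⟨(Dvd.intro_left l hj.symm).trans h1, not_le.1 h⟩
  have h5 := hy l hl ((Dvd.intro j hj.symm).trans h1)
  have h6 : (k : ℝ) = l * j := by exact_mod_cast hj
  have hl0 : (0 : ℝ) ≤ l := Nat.cast_nonneg l
  have hj1 : (0 : ℝ) ≤ j := Nat.cast_nonneg j
  rw [h6]
  nlinarith

open Classical in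
theorem SPmain : ∃ C : ℝ, 0 < C ∧ ∀ ε₁ ε' : ℝ, 0 < ε₁ → ε₁ ≤ 1 / 8 → 0 < ε' → ε' ≤ 1 / 4 →
    ∃ N₀ : ℕ, ∀ N : ℕ, N₀ ≤ N → ∀ a : ℤ,
    (((Icc 1 N).filter (fun p : ℕ => p.Prime ∧ (p : ℤ) ≠ a ∧ ∃ m : ℕ, m ∣ (a - p).natAbs ∧
      (∀ l : ℕ, l.Prime → l ∣ m → (l : ℝ) < (N : ℝ) ^ ε₁) ∧ (N : ℝ) ^ ε' < m)).card : ℝ) ≤
      C * (ε₁ / ε') ^ 2 * (N / Real.log N) := by
  classical
  obtain ⟨Z, hZ3, hZ⟩ := Pool.Agent.H617R3.BT.bt 1 one_pos
  obtain ⟨C₀, hC₀, hmert⟩ := mert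
  refine ⟨129, by norm_num, ?_⟩
  intro ε₁ ε' hε₁ hε₁8 hε' hε'4
  obtain ⟨S₀, hS₀, hnp⟩ := nonprime' (ε₁ ^ 2 / (4 * ε')) (by positivity)
  -- conditions for large `N`
  have hlog : Tendsto (fun N : ℕ => Real.log (N : ℝ)) atTop atTop :=
    Real.tendsto_log_atTop.comp tendsto_natCast_atTop_atTop
  have hpow : Tendsto (fun N : ℕ => ((N : ℝ)) ^ (3 / 4 : ℝ)) atTop atTop :=
    (tendsto_rpow_atTop (by norm_num)).comp tendsto_natCast_atTop_atTop
  obtain ⟨N₀, hN₀⟩ := eventually_atTop.1 ((hlog.eventually_ge_atTop 1).and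
    ((hlog.eventually_ge_atTop (C₀ / ε₁)).and
    ((hlog.eventually_ge_atTop (12 * S₀ * ε' / ε₁ ^ 2)).and
    ((hpow.eventually_ge_atTop Z).and (eventually_ge_atTop ⌈Z⌉₊)))))
  refine ⟨N₀, ?_⟩
  intro N hN a
  obtain ⟨hL1, hLC, hLS, hNZ, hNZ'⟩ := hN₀ N hN
  set L : ℝ := Real.log (N : ℝ) with hL
  have hN1 : (1 : ℝ) < N := by
    by_contra h
    have h0 : L ≤ 0 := Real.log_nonpos (Nat.cast_nonneg _) (not_lt.1 h)
    linarith
  have hN0 : (0 : ℝ) < N := by linarith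
  have hL0 : 0 < L := by linarith
  set y : ℝ := (N : ℝ) ^ ε₁ with hy
  have hy1 : 1 ≤ y := Real.one_le_rpow hN1.le hε₁.le
  have hlogy : Real.log y = ε₁ * L := by rw [hy, Real.log_rpow hN0]
  have hy8 : y ≤ (N : ℝ) ^ (1 / 8 : ℝ) := Real.rpow_le_rpow_of_exponent_le hN1.le hε₁8
  have hyy : y * y ≤ (N : ℝ) ^ (1 / 4 : ℝ) := by
    calc y * y ≤ (N : ℝ) ^ (1 / 8 : ℝ) * (N : ℝ) ^ (1 / 8 : ℝ) :=
          mul_le_mul hy8 hy8 (by linarith) (by positivity)
      _ = (N : ℝ) ^ (1 / 4 : ℝ) := by rw [← Real.rpow_add hN0]; norm_num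
  -- Brun-Titchmarsh for moduli `≤ N ^ (1/4)`
  have bt : ∀ k : ℕ, 1 ≤ k → (k : ℝ) ≤ (N : ℝ) ^ (1 / 4 : ℝ) →
      (cc (PN N) a k : ℝ) ≤ 4 * N / L / (Nat.totient k : ℝ) := by
    intro k hk hkN
    have hk0 : (0 : ℝ) < k := by exact_mod_cast hk
    have ht0 : (0 : ℝ) < Nat.totient k := by exact_mod_cast Nat.totient_pos.2 hk
    have h1 : (N : ℝ) ^ (3 / 4 : ℝ) ≤ N / k := by
      rw [le_div_iff₀ hk0]
      calc (N : ℝ) ^ (3 / 4 : ℝ) * k ≤ (N : ℝ) ^ (3 / 4 : ℝ) * (N : ℝ) ^ (1 / 4 : ℝ) :=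
            mul_le_mul_of_nonneg_left hkN (by positivity)
        _ = N := by rw [← Real.rpow_add hN0]; norm_num
    have h2 := hZ k a N N hk (hNZ.trans h1)
    have h3 : (cc (PN N) a k : ℝ) ≤ (Pool.Agent.H617R3.BT.cnt N N k a : ℝ) := by
      exact_mod_cast cc_le_cnt (fun p hp => mem_PN.1 hp)
    have h4 : 3 / 4 * L ≤ Real.log (N / k) := by
      rw [hL, ← Real.log_rpow hN0]
      exact Real.log_le_log (by positivity) h1
    have h6 : 0 < Real.log (N / k) := by linarith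
    refine (h3.trans h2).trans ?_
    rw [div_div, div_le_div_iff₀ (by positivity) (by positivity)]
    have h5 := mul_le_mul_of_nonneg_left h4
      (show 0 ≤ 4 * (N : ℝ) * (Nat.totient k : ℝ) by positivity)
    nlinarith
  -- the set of primes
  set S : Finset ℕ := Q 1 y with hS
  have hSp : ∀ l ∈ S, l.Prime := fun l hl => (mem_Q.1 hl).1
  have hSy : ∀ l ∈ S, (l : ℝ) ≤ y := fun l hl => (mem_Q.1 hl).2.2
  have hM0 : 0 ≤ 4 * (N : ℝ) / L := by positivity
  have hsec := second (N := N) (a := a) hM0 S hSp (by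
      intro l hl
      have h1 := bt l (hSp l hl).one_lt.le (by
        have h2 := hSy l hl
        have h3 : y ≤ y * y := by nlinarith
        linarith)
      rwa [Nat.totient_prime (hSp l hl), Nat.cast_sub (hSp l hl).one_lt.le, Nat.cast_one] at h1)
    (by
      intro l hl l' hl' hll
      have h1 := bt (l * l') (Nat.mul_pos (hSp l hl).pos (hSp l' hl').pos) (by
        rw [Nat.cast_mul]
        exact (mul_le_mul (hSy l hl) (hSy l' hl') (Nat.cast_nonneg _) (by linarith)).trans hyy)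
      rwa [Nat.totient_mul ((Nat.coprime_primes (hSp l hl) (hSp l' hl')).2 hll),
        Nat.totient_prime (hSp l hl), Nat.totient_prime (hSp l' hl'), Nat.cast_mul,
        Nat.cast_sub (hSp l hl).one_lt.le, Nat.cast_sub (hSp l' hl').one_lt.le,
        Nat.cast_one] at h1)
  have hm1 : ∑ l ∈ S, Real.log l / ((l : ℝ) - 1) ≤ 2 * (ε₁ * L) := by
    have h1 := hmert 1 y le_rfl hy1
    rw [Real.log_one, hlogy] at h1
    have h2 : C₀ ≤ ε₁ * L := by
      have := (div_le_iff₀ hε₁).1 hLC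
      linarith
    linarith
  have hm0 : 0 ≤ ∑ l ∈ S, Real.log l / ((l : ℝ) - 1) := by
    apply Finset.sum_nonneg
    intro l hl
    have : (2 : ℝ) ≤ l := by exact_mod_cast (hSp l hl).two_le
    exact div_nonneg (Real.log_natCast_nonneg l) (by linarith)
  have hm2 : ∑ l ∈ S, Real.log l * (Real.log l / ((l : ℝ) - 1)) ≤ 2 * (ε₁ * L) ^ 2 := by
    calc ∑ l ∈ S, Real.log l * (Real.log l / ((l : ℝ) - 1))
        ≤ ∑ l ∈ S, (ε₁ * L) * (Real.log l / ((l : ℝ) - 1)) := by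
          apply Finset.sum_le_sum
          intro l hl
          have h2 : (2 : ℝ) ≤ l := by exact_mod_cast (hSp l hl).two_le
          apply mul_le_mul_of_nonneg_right _
            (div_nonneg (Real.log_natCast_nonneg l) (by linarith))
          rw [← hlogy]
          exact Real.log_le_log (by linarith) (hSy l hl)
      _ = (ε₁ * L) * ∑ l ∈ S, Real.log l / ((l : ℝ) - 1) := by rw [Finset.mul_sum]
      _ ≤ (ε₁ * L) * (2 * (ε₁ * L)) := mul_le_mul_of_nonneg_left hm1 (by positivity)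
      _ = 2 * (ε₁ * L) ^ 2 := by ring
  have hsec' : ∑ p ∈ (PN N).filter (fun p : ℕ => (p : ℤ) ≠ a), RR S a p ^ 2 ≤
      4 * N / L * (6 * (ε₁ * L) ^ 2) := by
    refine hsec.trans (mul_le_mul_of_nonneg_left ?_ hM0)
    have := pow_le_pow_left₀ hm0 hm1 2
    nlinarith
  -- higher prime powers
  have hcardP : ((PN N).card : ℝ) ≤ 3 * N / L := by
    have h1 : (PN N).card ≤ cc (PN N) 0 1 := by
      unfold cc
      apply Finset.card_le_card
      intro p hp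
      rw [mem_filter]
      refine ⟨hp, ?_, by simp⟩
      have := (mem_PN.1 hp).1.pos
      omega
    have h2 : (cc (PN N) 0 1 : ℝ) ≤ (Pool.Agent.H617R3.BT.cnt N N 1 0 : ℝ) := by
      exact_mod_cast cc_le_cnt (fun p hp => mem_PN.1 hp)
    have h3 := hZ 1 0 N N le_rfl (by
      rw [Nat.cast_one, div_one]
      exact (Nat.le_ceil Z).trans (by exact_mod_cast hNZ'))
    rw [Nat.totient_one, Nat.cast_one, one_mul, div_one] at h3
    have h4 : ((PN N).card : ℝ) ≤ (cc (PN N) 0 1 : ℝ) := by exact_mod_cast h1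
    have h5 : (2 + 1 : ℝ) * N / Real.log N = 3 * N / L := by norm_num [hL]
    linarith
  have hnp' := hnp (PN N) a N (fun p hp => (mem_PN.1 hp).2)
  rw [← sum_RPp] at hnp'
  have hRP : ∑ p ∈ (PN N).filter (fun p : ℕ => (p : ℤ) ≠ a), RPp N a p ≤
      ε₁ ^ 2 / (2 * ε') * N := by
    refine hnp'.trans ?_
    have h1 : S₀ * (PN N).card ≤ S₀ * (3 * N / L) := mul_le_mul_of_nonneg_left hcardP hS₀
    have h2 : S₀ * (3 * N / L) ≤ ε₁ ^ 2 / (4 * ε') * N := by
      rw [div_le_iff₀ (by positivity)] at hLS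
      rw [mul_div_assoc', div_mul_eq_mul_div, div_le_div_iff₀ hL0 (by positivity)]
      nlinarith
    have h3 : ε₁ ^ 2 / (4 * ε') * N + ε₁ ^ 2 / (4 * ε') * N = ε₁ ^ 2 / (2 * ε') * N := by
      field_simp
      ring
    linarith
  -- conclusion
  set B := (PN N).filter (fun p : ℕ => (p : ℤ) ≠ a) with hB
  have hk1 := markov B (fun p => RR S a p ^ 2) (fun p _ => sq_nonneg _) ((ε' * L / 2) ^ 2) _
    (by positivity) hsec'
  have hk2 := markov B (fun p => RPp N a p) (fun p _ => RPp_nonneg N a p) (ε' * L / 2) _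
    (by positivity) hRP
  have hsub : (Icc 1 N).filter (fun p : ℕ => p.Prime ∧ (p : ℤ) ≠ a ∧ ∃ m : ℕ,
      m ∣ (a - p).natAbs ∧ (∀ l : ℕ, l.Prime → l ∣ m → (l : ℝ) < (N : ℝ) ^ ε₁) ∧
      (N : ℝ) ^ ε' < m) ⊆
      B.filter (fun p => (ε' * L / 2) ^ 2 ≤ RR S a p ^ 2) ∪
        B.filter (fun p => ε' * L / 2 ≤ RPp N a p) := by
    intro p hp
    rw [mem_filter, mem_Icc] at hp
    obtain ⟨⟨hp1, hpN⟩, hpp, hpa, m, hm, hml, hmN⟩ := hp
    have hn : (a - (p : ℤ)).natAbs ≠ 0 := by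
      rw [Int.natAbs_ne_zero]; omega
    have hm0 : m ≠ 0 := fun h => hn (by rw [h] at hm; exact Nat.eq_zero_of_zero_dvd hm)
    obtain ⟨m', hm', hm1', hm2'⟩ := exists_dvd (Real.one_le_rpow hN1.le hε'.le) hmN hml
    have hm'N : m' ≤ N := by
      have : (m' : ℝ) ≤ N := by
        refine hm2'.trans ?_
        rw [← Real.rpow_add hN0]
        calc (N : ℝ) ^ (ε' + ε₁) ≤ (N : ℝ) ^ (1 : ℝ) :=
              Real.rpow_le_rpow_of_exponent_le hN1.le (by linarith)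
          _ = N := Real.rpow_one _
      exact_mod_cast this
    have h1 := log_le' hpa (hm'.trans hm) hm'N (fun l hl hlm => hml l hl (hlm.trans hm'))
    have h2 : ε' * L ≤ Real.log m' := by
      rw [hL, ← Real.log_rpow hN0]
      exact Real.log_le_log (by positivity) hm1'.le
    have hpB : p ∈ B := by
      rw [hB, mem_filter, mem_PN]
      exact ⟨⟨hpp, hpN⟩, hpa⟩
    rw [mem_union]
    rcases le_or_gt (ε' * L / 2) (RPp N a p) with h | h
    · exact Or.inr (mem_filter.2 ⟨hpB, h⟩)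
    · refine Or.inl (mem_filter.2 ⟨hpB, ?_⟩)
      apply pow_le_pow_left₀ (by positivity)
      have h3 : RR (Q 1 ((N : ℝ) ^ ε₁)) a p = RR S a p := rfl
      rw [h3] at h1
      linarith
  have hfin : (((Icc 1 N).filter (fun p : ℕ => p.Prime ∧ (p : ℤ) ≠ a ∧ ∃ m : ℕ,
      m ∣ (a - p).natAbs ∧ (∀ l : ℕ, l.Prime → l ∣ m → (l : ℝ) < (N : ℝ) ^ ε₁) ∧
      (N : ℝ) ^ ε' < m)).card : ℝ) ≤
      ((B.filter (fun p => (ε' * L / 2) ^ 2 ≤ RR S a p ^ 2)).card : ℝ) +
        ((B.filter (fun p => ε' * L / 2 ≤ RPp N a p)).card : ℝ) := by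
    have := (Finset.card_le_card hsub).trans (Finset.card_union_le _ _)
    exact_mod_cast this
  refine hfin.trans ?_
  refine (add_le_add hk1 hk2).trans ?_
  have e1 : 4 * (N : ℝ) / L * (6 * (ε₁ * L) ^ 2) / (ε' * L / 2) ^ 2 =
      96 * (ε₁ / ε') ^ 2 * (N / L) := by
    field_simp
    ring
  have e2 : ε₁ ^ 2 / (2 * ε') * N / (ε' * L / 2) = (ε₁ / ε') ^ 2 * (N / L) := by
    field_simp
  rw [e1, e2]
  have : 0 ≤ (ε₁ / ε') ^ 2 * ((N : ℝ) / L) := by positivity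
  linarith


/-- **SP** -/
theorem SP : Pool.Agent.W21.RV.St_SP := by
  classical
  obtain ⟨C, hC, hmain⟩ := SPmain
  refine ⟨C * 144, by positivity, ?_⟩
  intro ε₁ ε' hε₁ hε₁8 hε'
  have hmin : 0 < min ε' (1 / 4) := lt_min hε' (by norm_num)
  obtain ⟨N₀, hN₀⟩ := hmain ε₁ (min ε' (1 / 4)) hε₁ hε₁8 hmin (min_le_right _ _)
  refine ⟨max N₀ 3, ?_⟩
  intro N hN a ha
  have hN3 : 3 ≤ N := (le_max_right _ _).trans hN
  have hN3' : (3 : ℝ) ≤ N := by exact_mod_cast hN3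
  have hN1 : (1 : ℝ) ≤ N := by linarith
  have hNL : 0 ≤ (N : ℝ) / Real.log N := div_nonneg (by linarith) (Real.log_natCast_nonneg N)
  by_cases h3 : 3 ≤ ε'
  · have hemp : (Icc 1 N).filter (fun p : ℕ => p.Prime ∧ (p : ℤ) ≠ a ∧ ∃ m : ℕ,
        m ∣ (a - p).natAbs ∧
        (∀ l : ℕ, l.Prime → l ∣ m → (l : ℝ) < (N : ℝ) ^ ε₁) ∧ (N : ℝ) ^ ε' < m) = ∅ := by
      rw [Finset.filter_eq_empty_iff]
      rintro p hp ⟨_, hpa, m, hm, _, hmN⟩
      rw [mem_Icc] at hp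
      have hn : (a - (p : ℤ)).natAbs ≠ 0 := by
        rw [Int.natAbs_ne_zero]; omega
      have h4 := Nat.le_of_dvd (Nat.pos_of_ne_zero hn) hm
      have h5 : (m : ℝ) ≤ ((a - (p : ℤ)).natAbs : ℝ) := by exact_mod_cast h4
      have h6 : ((a - (p : ℤ)).natAbs : ℝ) = |(a : ℝ) - p| := by
        rw [Nat.cast_natAbs]; push_cast; rfl
      have h7 : |(a : ℝ) - p| ≤ |(a : ℝ)| + |(p : ℝ)| := abs_sub _ _
      have h8 : |(p : ℝ)| ≤ N := by
        rw [abs_of_nonneg (Nat.cast_nonneg p)]; exact_mod_cast hp.2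
      have h9 : (N : ℝ) ^ (3 : ℝ) ≤ (N : ℝ) ^ ε' := Real.rpow_le_rpow_of_exponent_le hN1 h3
      have h10 : (N : ℝ) ^ (3 : ℝ) = (N : ℝ) ^ 3 := by norm_cast
      rw [h10] at h9
      have h11 : (N : ℝ) ^ 3 = N * (N : ℝ) ^ 2 := by ring
      nlinarith
    rw [hemp, Finset.card_empty, Nat.cast_zero]
    positivity
  · have h3' : ε' < 3 := not_le.1 h3
    have h1 := hN₀ N ((le_max_left _ _).trans hN) a
    have hsub : (Icc 1 N).filter (fun p : ℕ => p.Prime ∧ (p : ℤ) ≠ a ∧ ∃ m : ℕ,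
        m ∣ (a - p).natAbs ∧
        (∀ l : ℕ, l.Prime → l ∣ m → (l : ℝ) < (N : ℝ) ^ ε₁) ∧ (N : ℝ) ^ ε' < m) ⊆
        (Icc 1 N).filter (fun p : ℕ => p.Prime ∧ (p : ℤ) ≠ a ∧ ∃ m : ℕ,
        m ∣ (a - p).natAbs ∧
        (∀ l : ℕ, l.Prime → l ∣ m → (l : ℝ) < (N : ℝ) ^ ε₁) ∧
          (N : ℝ) ^ (min ε' (1 / 4)) < m) := by
      intro p hp
      rw [mem_filter] at hp ⊢
      obtain ⟨hp1, hp2, hp3, m, hm, hm1, hm2⟩ := hp
      exact ⟨hp1, hp2, hp3, m, hm, hm1, lt_of_le_of_lt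
        (Real.rpow_le_rpow_of_exponent_le hN1 (min_le_left _ _)) hm2⟩
    have h2 := (Nat.cast_le (α := ℝ)).2 (Finset.card_le_card hsub)
    refine h2.trans (h1.trans ?_)
    apply mul_le_mul_of_nonneg_right _ hNL
    rw [mul_assoc]
    apply mul_le_mul_of_nonneg_left _ hC.le
    have h4 : ε' ≤ 12 * min ε' (1 / 4) := by
      rcases min_choice ε' (1 / 4) with h | h <;> rw [h] <;> linarith
    have h5 : ε₁ / min ε' (1 / 4) ≤ 12 * (ε₁ / ε') := by
      rw [mul_div_assoc', div_le_div_iff₀ hmin hε']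
      nlinarith
    have h6 := pow_le_pow_left₀ (div_nonneg hε₁.le hmin.le) h5 2
    calc (ε₁ / min ε' (1 / 4)) ^ 2 ≤ (12 * (ε₁ / ε')) ^ 2 := h6
      _ = 144 * (ε₁ / ε') ^ 2 := by ring

end Pool.Agent.W974.RV
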